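import Mathlib

/-!
# From a bound for one pattern of four elements to a count
-/

set_option autoImplicit false

open Finset

namespace Pool.Agent.H43.Fac

/-- Elements with at least three larger companions in their block. -/
theorem not_good_card {β : Type} [DecidableEq β] (A : Finset ℕ) (blk : ℕ → β) (T : Finset β)
    (hT : ∀ n ∈ A, blk n ∈ T) :
    (A.filter fun n => (A.filter fun k => blk k = blk n ∧ n ≤ k).card ≤ 3).card ≤ 3 * T.card := by
  set F := A.filter fun n => (A.filter fun k => blk k = blk n ∧ n ≤ k).card ≤ 3 with hF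
  have h1 : F.card ≤ ∑ b ∈ T, (F.filter fun n => blk n = b).card := by
    rw [← card_eq_sum_card_fiberwise (f := blk) (s := F) (t := T)]
    intro n hn
    exact hT n (mem_filter.1 hn).1
  refine h1.trans ?_
  have h2 : ∀ b ∈ T, (F.filter fun n => blk n = b).card ≤ 3 := by
    intro b _
    by_cases hne : (F.filter fun n => blk n = b).Nonempty
    · obtain ⟨hm1, hm2⟩ := mem_filter.1 (min'_mem _ hne)
      set n0 := (F.filter fun n => blk n = b).min' hne
      have h3 := (mem_filter.1 hm1).2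
      refine (card_le_card ?_).trans h3
      intro k hk
      obtain ⟨hk1, hk2⟩ := mem_filter.1 hk
      refine mem_filter.2 ⟨(mem_filter.1 hk1).1, ?_, min'_le _ _ hk⟩
      rw [hk2, hm2]
    · rw [not_nonempty_iff_eq_empty.1 hne, card_empty]; omega
  calc ∑ b ∈ T, (F.filter fun n => blk n = b).card ≤ ∑ b ∈ T, 3 := sum_le_sum h2
    _ = 3 * T.card := by rw [sum_const, smul_eq_mul, mul_comm]

/-- One scale. -/
theorem one_scale (r K : ℕ) (hr : 1 ≤ r) (S : Set ℕ) (X h : ℕ) (hh : 1 ≤ h)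
    (H : ∀ m : Fin 4 → ℕ, Function.Injective m → (∀ i, m i ≤ h) → (∀ i, r ∣ m i) →
      ∀ B : Finset ℕ, (∀ n ∈ B, 499 * X ≤ 500 * n ∧ n ≤ X ∧ ∀ i, n + m i ∈ S) →
        B.card ≤ K * h)
    (A : Finset ℕ) (hA : ∀ n ∈ A, 499 * X ≤ 500 * n ∧ n ≤ X ∧ n ∈ S) :
    A.card ≤ 3 * ((X / h + 1) * r) + (h + 1) ^ 3 * (K * h) := by
  classical
  set blk : ℕ → ℕ × ℕ := fun n => (n / h, n % r) with hblk
  set T : Finset (ℕ × ℕ) := range (X / h + 1) ×ˢ range r with hTdef
  have hT : ∀ n ∈ A, blk n ∈ T := by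
    intro n hn
    have h1 := (hA n hn).2.1
    refine mem_product.2 ⟨mem_range.2 ?_, mem_range.2 (Nat.mod_lt _ hr)⟩
    exact Nat.lt_succ_of_le (Nat.div_le_div_right h1)
  have hTc : T.card = (X / h + 1) * r := by rw [hTdef, card_product, card_range, card_range]
  set Bad := A.filter fun n => (A.filter fun k => blk k = blk n ∧ n ≤ k).card ≤ 3 with hBad
  set Good := A.filter fun n => ¬ (A.filter fun k => blk k = blk n ∧ n ≤ k).card ≤ 3 with hGood
  have hsplit : A.card = Bad.card + Good.card := by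
    rw [hBad, hGood, card_filter_add_card_filter_not]
  have hBadc : Bad.card ≤ 3 * ((X / h + 1) * r) := by
    rw [← hTc]; exact not_good_card A blk T hT
  -- the pattern sets
  set PB : (Fin 3 → Fin (h + 1)) → Finset ℕ := fun m =>
    A.filter fun n => Function.Injective (Fin.cons 0 (fun i => (m i : ℕ)) : Fin 4 → ℕ) ∧
      (∀ i, r ∣ (m i : ℕ)) ∧ ∀ i, n + (m i : ℕ) ∈ S with hPB
  have hGoodsub : Good ⊆ univ.biUnion PB := by
    intro n hn
    obtain ⟨hnA, hn3⟩ := mem_filter.1 hn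
    push Not at hn3
    set E := A.filter fun k => blk k = blk n ∧ n ≤ k with hE
    have hnE : n ∈ E := mem_filter.2 ⟨hnA, rfl, le_refl n⟩
    have hEe : 3 ≤ (E.erase n).card := by
      rw [card_erase_of_mem hnE]; omega
    obtain ⟨t, htE, htc⟩ := exists_subset_card_eq hEe
    have hmem : ∀ i : Fin 3, (t.orderEmbOfFin htc i) ∈ t := fun i => orderEmbOfFin_mem t htc i
    have hprop : ∀ k ∈ t, n < k ∧ k - n ≤ h ∧ r ∣ k - n ∧ k ∈ S := by
      intro k hk
      obtain ⟨hkn, hkE⟩ := mem_erase.1 (htE hk)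
      obtain ⟨hkA, hkb, hkle⟩ := mem_filter.1 hkE
      have hlt : n < k := lt_of_le_of_ne hkle (Ne.symm hkn)
      simp only [hblk, Prod.mk.injEq] at hkb
      refine ⟨hlt, ?_, ?_, (hA k hkA).2.2⟩
      · have e1 := Nat.div_add_mod k h
        have e2 := Nat.div_add_mod n h
        have e3 := Nat.mod_lt k hh
        rw [hkb.1] at e1
        omega
      · exact (Nat.modEq_iff_dvd' hkle).1 (by rw [Nat.ModEq]; exact hkb.2.symm)
    set m : Fin 3 → Fin (h + 1) := fun i => ⟨t.orderEmbOfFin htc i - n,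
      Nat.lt_succ_of_le (hprop _ (hmem i)).2.1⟩ with hm
    refine mem_biUnion.2 ⟨m, mem_univ _, mem_filter.2 ⟨hnA, ?_, ?_, ?_⟩⟩
    · rw [Fin.cons_injective_iff]
      refine ⟨?_, ?_⟩
      · rintro ⟨i, hi⟩
        have := (hprop _ (hmem i)).1
        simp only [hm] at hi
        omega
      · intro i j hij
        simp only [hm] at hij
        have h1 := (hprop _ (hmem i)).1
        have h2 := (hprop _ (hmem j)).1
        have h3 : t.orderEmbOfFin htc i = t.orderEmbOfFin htc j := by omega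
        exact (t.orderEmbOfFin htc).injective h3
    · intro i; exact (hprop _ (hmem i)).2.2.1
    · intro i
      have h1 := (hprop _ (hmem i)).1
      have h2 := (hprop _ (hmem i)).2.2.2
      have h3 : n + (t.orderEmbOfFin htc i - n) = t.orderEmbOfFin htc i := by omega
      show n + (t.orderEmbOfFin htc i - n) ∈ S
      rw [h3]; exact h2
  have hPBc : ∀ m, (PB m).card ≤ K * h := by
    intro m
    by_cases hne : (PB m).Nonempty
    · obtain ⟨n1, hn1⟩ := hne
      obtain ⟨_, hinj, hdvd, _⟩ := mem_filter.1 hn1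
      refine H (Fin.cons 0 (fun i => (m i : ℕ))) hinj ?_ ?_ (PB m) ?_
      · intro i
        refine Fin.cases ?_ (fun i => ?_) i
        · simp
        · rw [Fin.cons_succ]; exact Nat.lt_succ_iff.1 (m i).2
      · intro i
        refine Fin.cases ?_ (fun i => ?_) i
        · simp
        · rw [Fin.cons_succ]; exact hdvd i
      · intro n hn
        obtain ⟨hnA, _, _, hS⟩ := mem_filter.1 hn
        refine ⟨(hA n hnA).1, (hA n hnA).2.1, ?_⟩
        intro i
        refine Fin.cases ?_ (fun i => ?_) i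
        · rw [Fin.cons_zero, add_zero]; exact (hA n hnA).2.2
        · rw [Fin.cons_succ]; exact hS i
    · rw [not_nonempty_iff_eq_empty.1 hne, card_empty]; exact Nat.zero_le _
  have hGoodc : Good.card ≤ (h + 1) ^ 3 * (K * h) := by
    refine (card_le_card hGoodsub).trans ?_
    refine card_biUnion_le.trans ?_
    refine (sum_le_sum (fun m _ => hPBc m)).trans ?_
    rw [sum_const, smul_eq_mul, card_univ, Fintype.card_fun, Fintype.card_fin, Fintype.card_fin]
  omega

theorem exists_fifth_root (X : ℕ) (hX : 1 ≤ X) : ∃ h, 1 ≤ h ∧ h ^ 5 ≤ X ∧ X < (h + 1) ^ 5 := by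
  have hex : ∃ k, X < (k + 1) ^ 5 :=
    ⟨X, by nlinarith [Nat.pow_le_pow_left (show 1 ≤ X + 1 by omega) 4,
      show (X + 1) ^ 5 = (X + 1) ^ 4 * (X + 1) from pow_succ _ _]⟩
  classical
  refine ⟨Nat.find hex, ?_, ?_, Nat.find_spec hex⟩
  · by_contra h
    have h0 : Nat.find hex = 0 := by omega
    have := Nat.find_spec hex
    rw [h0] at this
    omega
  · rcases hk : Nat.find hex with _ | k
    · simp
    · have := Nat.find_min hex (m := k) (by omega)
      omega

theorem exists_scaled_root (c X : ℕ) (hc : 1 ≤ c) (hX : c ^ 5 ≤ X) :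
    ∃ h, 1 ≤ h ∧ (c * h) ^ 5 ≤ X ∧ X < (c * (h + 1)) ^ 5 := by
  obtain ⟨t, ht1, ht2, ht3⟩ := exists_fifth_root X (by
    have := Nat.one_le_pow 5 c (by omega)
    omega)
  have hct : c ≤ t := by
    by_contra hlt
    have h1 : t + 1 ≤ c := by omega
    have := Nat.pow_le_pow_left h1 5
    omega
  refine ⟨t / c, (Nat.one_le_div_iff (by omega)).2 hct, ?_, ?_⟩
  · exact (Nat.pow_le_pow_left (Nat.mul_div_le t c) 5).trans ht2
  · have h1 : t + 1 ≤ c * (t / c + 1) := by
      have := Nat.lt_mul_div_succ t (b := c) (by omega)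
      omega
    exact lt_of_lt_of_le ht3 (Nat.pow_le_pow_left h1 5)

/-- **Count from one pattern.** -/
theorem count_of_pattern4 (r c : ℕ) (hr : 1 ≤ r) (hc : 1 ≤ c) (S : Set ℕ) (X0 : ℕ)
    (H : ∀ X h : ℕ, X0 ≤ X → 1 ≤ h → (c * h) ^ 5 ≤ X → X < (c * (h + 1)) ^ 5 →
      ∀ m : Fin 4 → ℕ, Function.Injective m → (∀ i, m i ≤ h) → (∀ i, r ∣ m i) →
      ∀ B : Finset ℕ, (∀ n ∈ B, 499 * X ≤ 500 * n ∧ n ≤ X ∧ ∀ i, n + m i ∈ S) →
        B.card ≤ 2000 * h) :
    ∃ C : ℝ, ∀ N : ℕ, 1 ≤ N → ∀ A : Finset ℕ, (∀ n ∈ A, n ≤ N ∧ n ∈ S) →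
      (A.card : ℝ) ≤ C * (N : ℝ) ^ (4 / 5 : ℝ) := by
  set C1 : ℝ := 3 * ((2 * c + 1) * r) + 8 * 2000 with hC1
  set C : ℝ := 625 * C1 + X0 + c ^ 5 + 2000 with hC
  have hC1nn : 0 ≤ C1 := by positivity
  refine ⟨C, ?_⟩
  intro N
  induction N using Nat.strong_induction_on with
  | _ N ih =>
    intro hN A hA
    have hN1 : (1 : ℝ) ≤ (N : ℝ) := by exact_mod_cast hN
    have hNp : (1 : ℝ) ≤ (N : ℝ) ^ (4 / 5 : ℝ) := Real.one_le_rpow hN1 (by norm_num)
    by_cases hsmall : N < X0 + c ^ 5 + 1000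
    · have h1 : A.card ≤ N + 1 := by
        have : A ⊆ range (N + 1) := fun n hn => mem_range.2 (by have := (hA n hn).1; omega)
        simpa using card_le_card this
      have h2 : (A.card : ℝ) ≤ X0 + c ^ 5 + 1001 := by
        have : A.card ≤ X0 + c ^ 5 + 1001 := by omega
        exact_mod_cast this
      calc (A.card : ℝ) ≤ X0 + c ^ 5 + 1001 := h2
        _ ≤ C * 1 := by rw [hC]; linarith
        _ ≤ C * (N : ℝ) ^ (4 / 5 : ℝ) := by
          refine mul_le_mul_of_nonneg_left hNp ?_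
          rw [hC]; positivity
    · push Not at hsmall
      obtain ⟨h, hh1, hh2, hh3⟩ := exists_scaled_root c N hc (by omega)
      set A1 := A.filter fun n => 499 * N ≤ 500 * n with hA1
      set A2 := A.filter fun n => ¬ 499 * N ≤ 500 * n with hA2
      have hsplit : A.card = A1.card + A2.card := by
        rw [hA1, hA2, card_filter_add_card_filter_not]
      have hb1 := one_scale r 2000 hr S N h hh1 (H N h (by omega) hh1 hh2 hh3) A1 (by
        intro n hn
        obtain ⟨h1, h2⟩ := mem_filter.1 hn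
        exact ⟨h2, (hA n h1).1, (hA n h1).2⟩)
      -- real bounds for h
      set hr' : ℝ := (N : ℝ) ^ (1 / 5 : ℝ) with hhr'
      have hN0 : (0 : ℝ) ≤ N := Nat.cast_nonneg N
      have hhr0 : 0 ≤ hr' := Real.rpow_nonneg hN0 _
      have hpow5 : hr' ^ 5 = N := by
        rw [hhr', ← Real.rpow_natCast, ← Real.rpow_mul hN0]
        norm_num
      have hpow4 : hr' ^ 4 = (N : ℝ) ^ (4 / 5 : ℝ) := by
        rw [hhr', ← Real.rpow_natCast, ← Real.rpow_mul hN0]
        norm_num
      have hc1' : (1 : ℝ) ≤ c := by exact_mod_cast hc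
      have hh1' : (1 : ℝ) ≤ h := by exact_mod_cast hh1
      have hle : (c : ℝ) * h ≤ hr' := by
        have : ((c : ℝ) * h) ^ 5 ≤ hr' ^ 5 := by rw [hpow5]; exact_mod_cast hh2
        exact le_of_pow_le_pow_left₀ (by norm_num) hhr0 this
      have hle1 : (h : ℝ) ≤ hr' := by
        have : 1 * (h : ℝ) ≤ c * h := mul_le_mul_of_nonneg_right hc1' (by linarith)
        linarith
      have hlt : hr' < c * (h + 1) := by
        have : hr' ^ 5 < ((c : ℝ) * (h + 1)) ^ 5 := by rw [hpow5]; exact_mod_cast hh3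
        exact lt_of_pow_lt_pow_left₀ 5 (by positivity) this
      have hhr1 : 1 ≤ hr' := hh1'.trans hle1
      have hA1c : (A1.card : ℝ) ≤ C1 * (N : ℝ) ^ (4 / 5 : ℝ) := by
        have h1 : (A1.card : ℝ) ≤ 3 * (((N / h : ℕ) + 1) * r) + (h + 1) ^ 3 * (2000 * h) := by
          exact_mod_cast hb1
        have h2 : ((N / h : ℕ) : ℝ) ≤ 2 * c * hr' ^ 4 := by
          have : ((N / h : ℕ) : ℝ) ≤ (N : ℝ) / h := Nat.cast_div_le
          refine this.trans ?_
          rw [div_le_iff₀ (by linarith), ← hpow5]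
          have h5 : hr' ≤ 2 * c * h := by
            have : (c : ℝ) * 1 ≤ c * h := mul_le_mul_of_nonneg_left hh1' (by linarith)
            linarith
          calc hr' ^ 5 = hr' ^ 4 * hr' := by ring
            _ ≤ hr' ^ 4 * (2 * c * h) := mul_le_mul_of_nonneg_left h5 (by positivity)
            _ = 2 * c * hr' ^ 4 * h := by ring
        have h4 : (1 : ℝ) ≤ hr' ^ 4 := one_le_pow₀ hhr1
        have h6 : ((h : ℝ) + 1) ^ 3 ≤ 8 * hr' ^ 3 := by
          have : (h : ℝ) + 1 ≤ 2 * hr' := by linarith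
          calc ((h : ℝ) + 1) ^ 3 ≤ (2 * hr') ^ 3 := pow_le_pow_left₀ (by positivity) this 3
            _ = 8 * hr' ^ 3 := by ring
        have h7 : (2000 : ℝ) * h ≤ 2000 * hr' := by linarith
        have h8 : ((h : ℝ) + 1) ^ 3 * (2000 * h) ≤ 8 * hr' ^ 3 * (2000 * hr') :=
          mul_le_mul h6 h7 (by positivity) (by positivity)
        rw [← hpow4]
        have hr0 : (0 : ℝ) ≤ r := Nat.cast_nonneg r
        have h9 : (((N / h : ℕ) : ℝ) + 1) * r ≤ ((2 * c + 1) * hr' ^ 4) * r :=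
          mul_le_mul_of_nonneg_right (by linarith) hr0
        calc (A1.card : ℝ) ≤ 3 * (((N / h : ℕ) + 1) * r) + (h + 1) ^ 3 * (2000 * h) := h1
          _ ≤ 3 * (((2 * c + 1) * hr' ^ 4) * r) + 8 * hr' ^ 3 * (2000 * hr') := by linarith
          _ = C1 * hr' ^ 4 := by rw [hC1]; ring
      -- the smaller elements
      set N2 : ℕ := 499 * N / 500 with hN2
      have hN2lt : N2 < N := by omega
      have hN2ge : 1 ≤ N2 := by omega
      have hA2c := ih N2 hN2lt hN2ge A2 (by
        intro n hn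
        obtain ⟨h1, h2⟩ := mem_filter.1 hn
        refine ⟨?_, (hA n h1).2⟩
        rw [hN2]
        omega)
      have hN2r : (N2 : ℝ) ≤ 499 / 500 * N := by
        have : ((499 * N / 500 : ℕ) : ℝ) ≤ ((499 * N : ℕ) : ℝ) / (500 : ℕ) := Nat.cast_div_le
        rw [hN2]
        push_cast at this
        linarith
      have hpw : (N2 : ℝ) ^ (4 / 5 : ℝ) ≤ (624 / 625) * (N : ℝ) ^ (4 / 5 : ℝ) := by
        have h1 : (N2 : ℝ) ^ (4 / 5 : ℝ) ≤ (499 / 500 * (N : ℝ)) ^ (4 / 5 : ℝ) :=
          Real.rpow_le_rpow (Nat.cast_nonneg _) hN2r (by norm_num)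
        rw [Real.mul_rpow (by norm_num) hN0] at h1
        refine h1.trans (mul_le_mul_of_nonneg_right ?_ (by positivity))
        have := rpow_one_add_le_one_add_mul_self (s := -(1 / 500 : ℝ)) (by norm_num)
          (p := 4 / 5) (by norm_num) (by norm_num)
        have e1 : (1 : ℝ) + -(1 / 500) = 499 / 500 := by norm_num
        rw [e1] at this
        refine this.trans ?_
        norm_num
      have hCnn : 0 ≤ C := by rw [hC]; positivity
      have hCC : C1 + C * (624 / 625) ≤ C := by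
        have : 625 * C1 ≤ C := by
          rw [hC]
          have : (0 : ℝ) ≤ (X0 : ℝ) + (c : ℝ) ^ 5 := by positivity
          linarith
        linarith
      calc (A.card : ℝ) = A1.card + A2.card := by rw [hsplit]; push_cast; ring
        _ ≤ C1 * (N : ℝ) ^ (4 / 5 : ℝ) + C * (N2 : ℝ) ^ (4 / 5 : ℝ) := add_le_add hA1c hA2c
        _ ≤ C1 * (N : ℝ) ^ (4 / 5 : ℝ) + C * ((624 / 625) * (N : ℝ) ^ (4 / 5 : ℝ)) := by
            have := mul_le_mul_of_nonneg_left hpw hCnn
            linarith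
        _ = (C1 + C * (624 / 625)) * (N : ℝ) ^ (4 / 5 : ℝ) := by ring
        _ ≤ C * (N : ℝ) ^ (4 / 5 : ℝ) := mul_le_mul_of_nonneg_right hCC (by linarith)

end Pool.Agent.H43.Fac
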