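import Pool.Agent.H78.Fac.Op

/-!
Weighted l1 norm on integer polynomials and its growth under `LL`.
-/

namespace Pool.Agent.H43.Fac

open Finset Polynomial Pool.H78.Fac

/-- coefficientwise absolute value -/
noncomputable def absP (p : ℤ[X]) : ℝ[X] :=
  ∑ e ∈ range (p.natDegree + 1), monomial e |((p.coeff e : ℤ) : ℝ)|

lemma coeff_absP (p : ℤ[X]) (n : ℕ) : (absP p).coeff n = |((p.coeff n : ℤ) : ℝ)| := by
  rw [absP, finsetSum_coeff]
  simp only [coeff_monomial]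
  by_cases hn : n ∈ range (p.natDegree + 1)
  · rw [Finset.sum_eq_single n]
    · simp
    · intro b _ hb; simp [hb]
    · intro h; exact absurd hn h
  · rw [Finset.sum_eq_zero]
    · have : p.natDegree < n := by simpa using hn
      rw [coeff_eq_zero_of_natDegree_lt this]; simp
    · intro x hx
      have : x ≠ n := by rintro rfl; exact hn hx
      simp [this]

/-- weighted l1 norm -/
noncomputable def nm (ρ : ℝ) (p : ℤ[X]) : ℝ := (absP p).eval ρ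

lemma natDegree_absP (p : ℤ[X]) : (absP p).natDegree ≤ p.natDegree := by
  rw [natDegree_le_iff_coeff_eq_zero]
  intro N hN
  rw [coeff_absP, coeff_eq_zero_of_natDegree_lt hN]; simp

lemma nm_eq (ρ : ℝ) (p : ℤ[X]) {N : ℕ} (h : p.natDegree < N) :
    nm ρ p = ∑ e ∈ range N, |((p.coeff e : ℤ) : ℝ)| * ρ ^ e := by
  rw [nm, eval_eq_sum_range' (lt_of_le_of_lt (natDegree_absP p) h)]
  simp only [coeff_absP]

lemma eval_le_eval {ρ : ℝ} (hρ : 0 ≤ ρ) {f g : ℝ[X]} (h : ∀ n, f.coeff n ≤ g.coeff n) :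
    f.eval ρ ≤ g.eval ρ := by
  have hf : f.natDegree < max f.natDegree g.natDegree + 1 := by omega
  have hg : g.natDegree < max f.natDegree g.natDegree + 1 := by omega
  rw [eval_eq_sum_range' hf, eval_eq_sum_range' hg]
  apply Finset.sum_le_sum
  intro i _
  exact mul_le_mul_of_nonneg_right (h i) (pow_nonneg hρ i)

lemma nm_nonneg {ρ : ℝ} (hρ : 0 ≤ ρ) (p : ℤ[X]) : 0 ≤ nm ρ p := by
  rw [nm_eq ρ p (Nat.lt_succ_self _)]
  positivity

lemma nm_add {ρ : ℝ} (hρ : 0 ≤ ρ) (p q : ℤ[X]) : nm ρ (p + q) ≤ nm ρ p + nm ρ q := by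
  rw [nm, nm, nm, ← eval_add]
  apply eval_le_eval hρ
  intro n
  rw [coeff_add, coeff_absP, coeff_absP, coeff_absP, coeff_add]
  push_cast
  exact abs_add_le _ _

lemma nm_mul {ρ : ℝ} (hρ : 0 ≤ ρ) (p q : ℤ[X]) : nm ρ (p * q) ≤ nm ρ p * nm ρ q := by
  rw [nm, nm, nm, ← eval_mul]
  apply eval_le_eval hρ
  intro n
  rw [coeff_absP, coeff_mul, coeff_mul]
  push_cast
  refine (Finset.abs_sum_le_sum_abs _ _).trans ?_
  apply Finset.sum_le_sum
  intro x _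
  rw [abs_mul, coeff_absP, coeff_absP]

lemma nm_sum {ρ : ℝ} (hρ : 0 ≤ ρ) {ι : Type*} (s : Finset ι) (f : ι → ℤ[X]) :
    nm ρ (∑ i ∈ s, f i) ≤ ∑ i ∈ s, nm ρ (f i) := by
  classical
  induction s using Finset.induction_on with
  | empty =>
    simp only [Finset.sum_empty]
    rw [nm_eq ρ 0 (Nat.lt_succ_self _)]
    simp
  | insert a s ha ih =>
    rw [Finset.sum_insert ha, Finset.sum_insert ha]
    exact (nm_add hρ _ _).trans (by linarith)

lemma nm_one (ρ : ℝ) : nm ρ 1 = 1 := by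
  rw [nm_eq ρ 1 (N := 1) (by simp)]
  simp

lemma nm_prod {ρ : ℝ} (hρ : 0 ≤ ρ) {ι : Type*} (s : Finset ι) (f : ι → ℤ[X]) {c : ℝ}
    (hc : ∀ i ∈ s, nm ρ (f i) ≤ c) : nm ρ (∏ i ∈ s, f i) ≤ c ^ s.card := by
  classical
  induction s using Finset.induction_on with
  | empty => simp [nm_one]
  | insert a s ha ih =>
    rw [Finset.prod_insert ha, Finset.card_insert_of_notMem ha, pow_succ, mul_comm (c ^ _)]
    refine (nm_mul hρ _ _).trans ?_
    apply mul_le_mul (hc a (Finset.mem_insert_self _ _))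
      (ih fun i hi => hc i (Finset.mem_insert_of_mem hi)) (nm_nonneg hρ _)
    exact (nm_nonneg hρ _).trans (hc a (Finset.mem_insert_self _ _))

lemma nm_C_mul {ρ : ℝ} (a : ℤ) (p : ℤ[X]) : nm ρ (C a * p) = |(a : ℝ)| * nm ρ p := by
  have h : (C a * p).natDegree < p.natDegree + 1 :=
    Nat.lt_succ_of_le (natDegree_C_mul_le a p)
  rw [nm_eq ρ _ h, nm_eq ρ p (Nat.lt_succ_self _), Finset.mul_sum]
  apply Finset.sum_congr rfl
  intro i _
  rw [coeff_C_mul]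
  push_cast
  rw [abs_mul]; ring

lemma nm_X (ρ : ℝ) : nm ρ X = ρ := by
  rw [nm_eq ρ X (N := 2) (by simp)]
  simp [Finset.sum_range_succ]

lemma nm_deriv {ρ : ℝ} (hρ : 0 < ρ) (p : ℤ[X]) {N : ℕ} (hN : p.natDegree ≤ N) :
    nm ρ (derivative p) ≤ N / ρ * nm ρ p := by
  have h1 : (derivative p).natDegree < N + 1 := by
    have := natDegree_derivative_le p
    omega
  rw [nm_eq ρ _ h1, nm_eq ρ p (N := N + 1 + 1) (by omega), Finset.mul_sum,
    Finset.sum_range_succ' _ (N + 1)]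
  have h2 : 0 ≤ (N : ℝ) / ρ * (|((p.coeff 0 : ℤ) : ℝ)| * ρ ^ 0) := by positivity
  refine le_trans ?_ (le_add_of_nonneg_right h2)
  apply Finset.sum_le_sum
  intro e he
  rw [coeff_derivative]
  push_cast
  rw [abs_mul]
  have h3 : |((e : ℝ) + 1)| = (e : ℝ) + 1 := abs_of_nonneg (by positivity)
  rw [h3]
  have h4 : (N : ℝ) / ρ * (|((p.coeff (e + 1) : ℤ) : ℝ)| * ρ ^ (e + 1))
      = |((p.coeff (e + 1) : ℤ) : ℝ)| * N * ρ ^ e := by
    rw [pow_succ]; field_simp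
  rw [h4]
  by_cases h5 : e + 1 ≤ N
  · have h6 : (e : ℝ) + 1 ≤ N := by exact_mod_cast h5
    gcongr
  · have h7 : p.coeff (e + 1) = 0 := coeff_eq_zero_of_natDegree_lt (by omega)
    rw [h7]; simp

section ops

variable {r h : ℕ}

lemma natDegree_fac (r j : ℕ) : (fac ℤ r j).natDegree ≤ 1 := by
  rw [fac]
  refine (natDegree_add_le _ _).trans ?_
  simp only [natDegree_one, zero_le, sup_of_le_right]
  refine (natDegree_C_mul_le _ _).trans ?_
  exact natDegree_X_le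

lemma natDegree_prod_fac (r : ℕ) (s : Finset ℕ) : (∏ j ∈ s, fac ℤ r j).natDegree ≤ s.card := by
  refine (natDegree_prod_le _ _).trans ?_
  refine (Finset.sum_le_sum fun j _ => natDegree_fac r j).trans ?_
  simp

lemma natDegree_DD (r h : ℕ) : (DD ℤ r h).natDegree ≤ h := by
  rw [DD]; simpa using natDegree_prod_fac r (range h)

lemma natDegree_TT (r h m : ℕ) : (TT ℤ r h m).natDegree ≤ h := by
  rw [TT]
  apply natDegree_sum_le_of_forall_le
  intro j _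
  refine (natDegree_C_mul_le _ _).trans ?_
  refine (natDegree_prod_fac r _).trans ?_
  exact (Finset.card_erase_le).trans (by simp)

lemma natDegree_LL (r h m : ℕ) (p : ℤ[X]) : (LL ℤ r h m p).natDegree ≤ p.natDegree + h := by
  rw [LL]
  refine (natDegree_add_le _ _).trans ?_
  apply max_le
  · refine natDegree_mul_le.trans ?_
    have := natDegree_derivative_le p
    have := natDegree_DD r h
    omega
  · refine natDegree_mul_le.trans ?_
    have := natDegree_TT r h m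
    omega

lemma nm_fac (hr : 1 ≤ r) (hh : 1 ≤ h) {j : ℕ} (hj : j < h) :
    nm (1 / (4 * (r : ℝ) ^ 2 * h)) (fac ℤ r j) ≤ 2 := by
  have hρ : (0 : ℝ) ≤ 1 / (4 * (r : ℝ) ^ 2 * h) := by positivity
  have hr' : (0 : ℝ) < r := by exact_mod_cast hr
  have hh' : (0 : ℝ) < h := by exact_mod_cast hh
  rw [fac]
  refine (nm_add hρ _ _).trans ?_
  rw [nm_one, nm_C_mul, nm_X]
  have h1 : |(((((r ^ 2 * (j + 1) : ℕ) : ℤ)) : ℝ))| = (r : ℝ) ^ 2 * (j + 1) := by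
    push_cast
    exact abs_of_nonneg (by positivity)
  rw [h1]
  have hj' : (j : ℝ) + 1 ≤ h := by exact_mod_cast hj
  have : (r : ℝ) ^ 2 * (j + 1) * (1 / (4 * (r : ℝ) ^ 2 * h)) = (j + 1) / (4 * h) := by
    field_simp
  rw [this]
  have : ((j : ℝ) + 1) / (4 * h) ≤ 1 := by
    rw [div_le_one (by positivity)]; linarith
  linarith

lemma nm_prod_fac (hr : 1 ≤ r) (hh : 1 ≤ h) (s : Finset ℕ) (hs : s ⊆ range h) :
    nm (1 / (4 * (r : ℝ) ^ 2 * h)) (∏ j ∈ s, fac ℤ r j) ≤ 2 ^ h := by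
  have hρ : (0 : ℝ) ≤ 1 / (4 * (r : ℝ) ^ 2 * h) := by positivity
  refine (nm_prod hρ s _ (c := 2) fun i hi => nm_fac hr hh (mem_range.1 (hs hi))).trans ?_
  apply pow_le_pow_right₀ (by norm_num)
  have := Finset.card_le_card hs
  simpa using this

lemma nm_DD (hr : 1 ≤ r) (hh : 1 ≤ h) : nm (1 / (4 * (r : ℝ) ^ 2 * h)) (DD ℤ r h) ≤ 2 ^ h := by
  rw [DD]; exact nm_prod_fac hr hh _ (Finset.Subset.refl _)

lemma nm_TT (hr : 1 ≤ r) (hh : 1 ≤ h) {m : ℕ} (hm : m ≤ h) :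
    nm (1 / (4 * (r : ℝ) ^ 2 * h)) (TT ℤ r h m) ≤ r * h ^ 2 * 2 ^ h := by
  have hρ : (0 : ℝ) ≤ 1 / (4 * (r : ℝ) ^ 2 * h) := by positivity
  rw [TT]
  refine (nm_sum hρ _ _).trans ?_
  have h1 : ∀ j ∈ range m, nm (1 / (4 * (r : ℝ) ^ 2 * h))
      (C ((r * (j + 1) : ℕ) : ℤ) * ∏ l ∈ (range h).erase j, fac ℤ r l) ≤ r * h * 2 ^ h := by
    intro j hj
    rw [nm_C_mul]
    have h2 : |((((r * (j + 1) : ℕ) : ℤ)) : ℝ)| ≤ (r : ℝ) * h := by
      rw [abs_of_nonneg (by positivity)]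
      have : j + 1 ≤ h := by have := mem_range.1 hj; omega
      exact_mod_cast Nat.mul_le_mul_left r this
    apply mul_le_mul h2 (nm_prod_fac hr hh _ (Finset.erase_subset _ _)) (nm_nonneg hρ _)
      (by positivity)
  refine (Finset.sum_le_sum h1).trans ?_
  rw [Finset.sum_const, card_range, nsmul_eq_mul]
  have hm' : (m : ℝ) ≤ h := by exact_mod_cast hm
  calc (m : ℝ) * (r * h * 2 ^ h) ≤ h * (r * h * 2 ^ h) := by gcongr
    _ = r * h ^ 2 * 2 ^ h := by ring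

lemma nm_LL (hr : 1 ≤ r) (hh : 1 ≤ h) {m X : ℕ} (hm : m ≤ h) (hhX : h ≤ X) (p : ℤ[X])
    (hp : p.natDegree ≤ X) :
    nm (1 / (4 * (r : ℝ) ^ 2 * h)) (LL ℤ r h m p)
      ≤ 2 ^ h * (5 * (r : ℝ) ^ 2 * h * X) * nm (1 / (4 * (r : ℝ) ^ 2 * h)) p := by
  have hr' : (1 : ℝ) ≤ r := by exact_mod_cast hr
  have hh' : (1 : ℝ) ≤ h := by exact_mod_cast hh
  have hρ : (0 : ℝ) < 1 / (4 * (r : ℝ) ^ 2 * h) := by positivity
  rw [LL]
  refine (nm_add hρ.le _ _).trans ?_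
  have h1 := nm_mul hρ.le (DD ℤ r h) (derivative p)
  have h2 := nm_mul hρ.le (TT ℤ r h m) p
  have h3 := nm_deriv hρ p hp
  have h4 := nm_DD hr hh
  have h5 := nm_TT hr hh hm
  set ρ := 1 / (4 * (r : ℝ) ^ 2 * h)
  have hn := nm_nonneg hρ.le p
  have h6 : nm ρ (DD ℤ r h) * nm ρ (derivative p) ≤ 2 ^ h * ((X : ℝ) / ρ * nm ρ p) :=
    mul_le_mul h4 h3 (nm_nonneg hρ.le _) (by positivity)
  have h7 : nm ρ (TT ℤ r h m) * nm ρ p ≤ r * h ^ 2 * 2 ^ h * nm ρ p :=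
    mul_le_mul_of_nonneg_right h5 hn
  have h8 : (X : ℝ) / ρ = 4 * (r : ℝ) ^ 2 * h * X := by
    show (X : ℝ) / (1 / (4 * (r : ℝ) ^ 2 * h)) = _
    field_simp
  have hX' : (h : ℝ) ≤ X := by exact_mod_cast hhX
  have h9 : (r : ℝ) * h ^ 2 ≤ (r : ℝ) ^ 2 * h * X := by
    calc (r : ℝ) * h ^ 2 = r * 1 * h * h := by ring
      _ ≤ r * r * h * X := by gcongr
      _ = (r : ℝ) ^ 2 * h * X := by ring
  calc nm ρ (DD ℤ r h * derivative p) + nm ρ (TT ℤ r h m * p)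
      ≤ 2 ^ h * ((X : ℝ) / ρ * nm ρ p) + r * h ^ 2 * 2 ^ h * nm ρ p := by linarith
    _ = 2 ^ h * (4 * (r : ℝ) ^ 2 * h * X + r * h ^ 2) * nm ρ p := by rw [h8]; ring
    _ ≤ 2 ^ h * (4 * (r : ℝ) ^ 2 * h * X + (r : ℝ) ^ 2 * h * X) * nm ρ p := by gcongr
    _ = 2 ^ h * (5 * (r : ℝ) ^ 2 * h * X) * nm ρ p := by ring

/-- growth of the weighted norm under the operators -/
theorem norm_growth_nm (hr : 1 ≤ r) (hh : 1 ≤ h) {m X d : ℕ} (hm : m ≤ h) (hhX : h ≤ X)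
    (p : ℤ[X]) (hd : p.natDegree ≤ d) {K : ℝ}
    (hK : nm (1 / (4 * (r : ℝ) ^ 2 * h)) p ≤ K) (s : ℕ) (hds : d + s * h ≤ X) :
    ((LL ℤ r h m)^[s] p).natDegree ≤ d + s * h ∧
      nm (1 / (4 * (r : ℝ) ^ 2 * h)) ((LL ℤ r h m)^[s] p)
        ≤ (2 ^ h * (5 * (r : ℝ) ^ 2 * h * X)) ^ s * K := by
  induction s with
  | zero =>
    refine ⟨by simpa using hd, ?_⟩
    rw [pow_zero, one_mul]
    exact hK
  | succ s ih =>
    have h0 : (s + 1) * h = s * h + h := by ring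
    obtain ⟨h1, h2⟩ := ih (by rw [h0] at hds; omega)
    rw [Function.iterate_succ_apply']
    constructor
    · refine (natDegree_LL _ _ _ _).trans ?_
      rw [h0]; omega
    · refine (nm_LL hr hh hm hhX _ (h1.trans (by rw [h0] at hds; omega))).trans ?_
      calc 2 ^ h * (5 * (r : ℝ) ^ 2 * h * X) * nm (1 / (4 * (r : ℝ) ^ 2 * h)) ((LL ℤ r h m)^[s] p)
          ≤ 2 ^ h * (5 * (r : ℝ) ^ 2 * h * X) * ((2 ^ h * (5 * (r : ℝ) ^ 2 * h * X)) ^ s * K) := by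
            gcongr
        _ = (2 ^ h * (5 * (r : ℝ) ^ 2 * h * X)) ^ (s + 1) * K := by ring

end ops

/-- (G) growth of the weighted norm under the operators -/
theorem norm_growth {r h m X d s : ℕ} (hr : 2 ≤ r) (hh : 1 ≤ h) (hm : m ≤ h) (hhX : h ≤ X)
    (hds : d + s * h ≤ X) (p : ℤ[X]) (hd : p.natDegree ≤ d) {B : ℝ}
    (hB : ∀ e, |((p.coeff e : ℤ) : ℝ)| ≤ B * (4 * (r : ℝ) ^ 2 * h) ^ e) :
    ((LL ℤ r h m)^[s] p).natDegree ≤ d + s * h ∧
      ∑ e ∈ range (X + 1), |((((LL ℤ r h m)^[s] p).coeff e : ℤ) : ℝ)| / (4 * (r : ℝ) ^ 2 * h) ^ e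
        ≤ (2 ^ h * (5 * (r : ℝ) ^ 2 * h * X)) ^ s * ((d + 1) * B) := by
  have hr' : (1 : ℝ) ≤ r := by exact_mod_cast (le_trans (by norm_num) hr)
  have hh' : (1 : ℝ) ≤ h := by exact_mod_cast hh
  have hθ : (0 : ℝ) < 4 * (r : ℝ) ^ 2 * h := by positivity
  have hK : nm (1 / (4 * (r : ℝ) ^ 2 * h)) p ≤ (d + 1) * B := by
    rw [nm_eq _ p (N := d + 1) (by omega)]
    have : ∀ e ∈ range (d + 1),
        |((p.coeff e : ℤ) : ℝ)| * (1 / (4 * (r : ℝ) ^ 2 * h)) ^ e ≤ B := by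
      intro e _
      rw [one_div, inv_pow, ← div_eq_mul_inv, div_le_iff₀ (by positivity)]
      exact hB e
    refine (Finset.sum_le_sum this).trans ?_
    rw [Finset.sum_const, card_range, nsmul_eq_mul]
    push_cast
    exact le_rfl
  obtain ⟨h1, h2⟩ := norm_growth_nm (by omega : 1 ≤ r) hh hm hhX p hd hK s hds
  refine ⟨h1, ?_⟩
  rw [nm_eq _ _ (N := X + 1) (by omega)] at h2
  refine le_trans (le_of_eq ?_) h2
  apply Finset.sum_congr rfl
  intro e _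
  rw [one_div, inv_pow, ← div_eq_mul_inv]

end Pool.Agent.H43.Fac
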